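import Pool.Agent.QSX.StmtsG

/-! Squad QSX, row ENU: the converse estimate for lengths (helper50). -/

set_option autoImplicit false

namespace Pool.Agent.QSX.H50

open Matrix Finset Pool.Agent.QSX

theorem mexp_sub_one_SU {m : ℕ} {x : Matrix (Fin m) (Fin m) ℝ} (hx : SU x) :
    SU (mexp x - 1) := by
  intro i j hij
  rw [Matrix.sub_apply, mexp, Finset.sum_range_succ', Matrix.add_apply]
  have h1 : (∑ k ∈ range m, (((k + 1).factorial : ℝ)⁻¹) • x ^ (k + 1)) i j = 0 := by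
    rw [Matrix.sum_apply]
    refine Finset.sum_eq_zero fun k _ => ?_
    rw [Matrix.smul_apply, hx.pow_apply (k + 1) i j (by
      have : (j : ℕ) ≤ i := hij
      omega), smul_zero]
  rw [h1, zero_add, pow_zero, Nat.factorial_zero, Nat.cast_one, inv_one, one_smul, sub_self]

theorem UU_mul {m : ℕ} {g h : Matrix (Fin m) (Fin m) ℝ} (hg : SU (g - 1)) (hh : SU (h - 1)) :
    SU (g * h - 1) := by
  have h1 : g * h - 1 = (g - 1) * (h - 1) + ((g - 1) + (h - 1)) := by
    noncomm_ring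
  rw [h1]
  exact (hg.mul hh).add (hg.add hh)

theorem pow_bound {m : ℕ} {N : Matrix (Fin m) (Fin m) ℝ} {B : ℝ}
    (hN : ∀ i l, |N i l| ≤ B) (k : ℕ) : ∀ i l, |(N ^ k) i l| ≤ ((m : ℝ) * B) ^ k := by
  induction k with
  | zero =>
    intro i l
    rw [pow_zero, pow_zero, Matrix.one_apply]
    split_ifs <;> simp
  | succ k ih =>
    intro i l
    have hB : 0 ≤ B := (abs_nonneg _).trans (hN i l)
    rw [pow_succ, Matrix.mul_apply]
    calc |∑ j, (N ^ k) i j * N j l| ≤ ∑ j, |(N ^ k) i j * N j l| := Finset.abs_sum_le_sum_abs _ _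
      _ ≤ ∑ _j : Fin m, ((m : ℝ) * B) ^ k * B := by
          refine Finset.sum_le_sum fun j _ => ?_
          rw [abs_mul]
          exact mul_le_mul (ih i j) (hN j l) (abs_nonneg _) (by positivity)
      _ = ((m : ℝ) * B) ^ (k + 1) := by
          rw [Finset.sum_const, Finset.card_univ, Fintype.card_fin, nsmul_eq_mul, pow_succ]
          ring

theorem sz_le {m : ℕ} {x : Matrix (Fin m) (Fin m) ℝ} {B : ℝ} (h : ∀ i l, |x i l| ≤ B) :
    sz x ≤ (m : ℝ) * ((m : ℝ) * B) := by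
  unfold sz
  calc ∑ i, ∑ j, |x i j| ≤ ∑ _i : Fin m, ∑ _j : Fin m, B :=
        Finset.sum_le_sum fun i _ => Finset.sum_le_sum fun j _ => h i j
    _ = (m : ℝ) * ((m : ℝ) * B) := by
        simp [Finset.sum_const, Finset.card_univ, Fintype.card_fin, nsmul_eq_mul]

/-- the main estimate for units -/
theorem key {m : ℕ} (hm : 0 < m) (V : (Matrix (Fin m) (Fin m) ℝ)ˣ)
    (hV : SU ((V : Matrix (Fin m) (Fin m) ℝ) - 1)) (c c' : Fin m → ℝ) (b δ : ℝ) (hb : 0 ≤ b)
    (_hδ : 0 ≤ δ) (hc : ∀ i, |c i - c' i| ≤ δ)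
    (hv : ∀ i l, i < l → |(V : Matrix (Fin m) (Fin m) ℝ) i l| ≤ Real.exp (b + c i - c l)) :
    sz (((ud c)⁻¹ * V * ud c' : (Matrix (Fin m) (Fin m) ℝ)ˣ) : Matrix (Fin m) (Fin m) ℝ) ≤
      (m : ℝ) ^ (m + 3) * Real.exp (m * b + δ) ∧
    sz ((((ud c)⁻¹ * V * ud c')⁻¹ : (Matrix (Fin m) (Fin m) ℝ)ˣ) : Matrix (Fin m) (Fin m) ℝ) ≤
      (m : ℝ) ^ (m + 3) * Real.exp (m * b + δ) := by
  have hm1 : (1 : ℝ) ≤ m := by exact_mod_cast hm
  -- the normalised matrix
  set W : Matrix (Fin m) (Fin m) ℝ := (((ud c)⁻¹ * V * ud c : (Matrix (Fin m) (Fin m) ℝ)ˣ) :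
    Matrix (Fin m) (Fin m) ℝ) with hW
  have hWil : ∀ i l, W i l = Real.exp (-c i) * (V : Matrix (Fin m) (Fin m) ℝ) i l *
      Real.exp (c l) := by
    intro i l
    rw [hW, Units.val_mul, Units.val_mul]
    change (diagonal (fun i => Real.exp (-c i)) * (V : Matrix (Fin m) (Fin m) ℝ) *
      diagonal (fun i => Real.exp (c i))) i l = _
    rw [Matrix.mul_diagonal, Matrix.diagonal_mul]
  have hWsu : SU (1 - W) := by
    intro i l hil
    rw [Matrix.sub_apply, hWil]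
    have h1 := hV i l hil
    rw [Matrix.sub_apply, sub_eq_zero] at h1
    rw [h1]
    rcases eq_or_ne i l with h | h
    · rw [h, Matrix.one_apply_eq, mul_one, ← Real.exp_add, neg_add_cancel, Real.exp_zero, sub_self]
    · rw [Matrix.one_apply_ne h, mul_zero, zero_mul, sub_self]
  have hWb : ∀ i l, i < l → |W i l| ≤ Real.exp b := by
    intro i l hil
    rw [hWil, abs_mul, abs_mul, Real.abs_exp, Real.abs_exp]
    calc Real.exp (-c i) * |(V : Matrix (Fin m) (Fin m) ℝ) i l| * Real.exp (c l)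
        ≤ Real.exp (-c i) * Real.exp (b + c i - c l) * Real.exp (c l) := by
          gcongr
          exact hv i l hil
      _ = Real.exp b := by
          rw [← Real.exp_add, ← Real.exp_add]; ring_nf
  have hNb : ∀ i l, |(1 - W) i l| ≤ Real.exp b := by
    intro i l
    rcases le_or_gt l i with h | h
    · rw [hWsu i l h, abs_zero]; exact (Real.exp_pos _).le
    · rw [Matrix.sub_apply, Matrix.one_apply_ne (ne_of_lt h), zero_sub, abs_neg]
      exact hWb i l h
  have hWall : ∀ i l, |W i l| ≤ Real.exp b := by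
    intro i l
    rcases lt_trichotomy i l with h | h | h
    · exact hWb i l h
    · have h1 := hWsu i l (le_of_eq h.symm)
      rw [Matrix.sub_apply, sub_eq_zero] at h1
      rw [← h1, h, Matrix.one_apply_eq, abs_one]
      exact Real.one_le_exp hb
    · have h1 := hWsu i l h.le
      rw [Matrix.sub_apply, sub_eq_zero] at h1
      rw [← h1, Matrix.one_apply_ne (ne_of_gt h), abs_zero]
      exact (Real.exp_pos _).le
  -- the inverse
  set Wi : Matrix (Fin m) (Fin m) ℝ := ((((ud c)⁻¹ * V * ud c)⁻¹ : (Matrix (Fin m) (Fin m) ℝ)ˣ) :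
    Matrix (Fin m) (Fin m) ℝ) with hWi
  have hWiS : Wi = ∑ k ∈ range m, (1 - W) ^ k := by
    have h1 : W * ∑ k ∈ range m, (1 - W) ^ k = 1 := by
      have h2 := mul_neg_geom_sum (1 - W) m
      rw [sub_sub_cancel, hWsu.pow_eq_zero le_rfl, sub_zero] at h2
      exact h2
    have h3 : Wi * W = 1 := by
      rw [hWi, hW]; exact Units.inv_mul _
    calc Wi = Wi * (W * ∑ k ∈ range m, (1 - W) ^ k) := by rw [h1, mul_one]
      _ = _ := by rw [← mul_assoc, h3, one_mul]
  have hme : (1 : ℝ) ≤ m * Real.exp b := by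
    have := Real.one_le_exp hb
    nlinarith
  have hWib : ∀ i l, |Wi i l| ≤ (m : ℝ) * ((m : ℝ) * Real.exp b) ^ m := by
    intro i l
    rw [hWiS, Matrix.sum_apply]
    calc |∑ k ∈ range m, ((1 - W) ^ k) i l| ≤ ∑ k ∈ range m, |((1 - W) ^ k) i l| :=
          Finset.abs_sum_le_sum_abs _ _
      _ ≤ ∑ _k ∈ range m, ((m : ℝ) * Real.exp b) ^ m := by
          refine Finset.sum_le_sum fun k hk => ?_
          refine (pow_bound hNb k i l).trans ?_
          exact pow_le_pow_right₀ hme (Finset.mem_range.1 hk).le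
      _ = _ := by rw [Finset.sum_const, Finset.card_range, nsmul_eq_mul]
  have hpow : ((m : ℝ) * Real.exp b) ^ m = (m : ℝ) ^ m * Real.exp (m * b) := by
    rw [mul_pow, ← Real.exp_nat_mul]
  have hpos : (0 : ℝ) < m := by linarith
  constructor
  · have h1 : ∀ i l, |((((ud c)⁻¹ * V * ud c' : (Matrix (Fin m) (Fin m) ℝ)ˣ)) :
        Matrix (Fin m) (Fin m) ℝ) i l| ≤ Real.exp (b + δ) := by
      intro i l
      have h2 : ((((ud c)⁻¹ * V * ud c' : (Matrix (Fin m) (Fin m) ℝ)ˣ)) :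
          Matrix (Fin m) (Fin m) ℝ) i l = W i l * Real.exp (c' l - c l) := by
        rw [hWil, Units.val_mul, Units.val_mul]
        change (diagonal (fun i => Real.exp (-c i)) * (V : Matrix (Fin m) (Fin m) ℝ) *
          diagonal (fun i => Real.exp (c' i))) i l = _
        rw [Matrix.mul_diagonal, Matrix.diagonal_mul, mul_assoc, mul_assoc, mul_assoc,
          ← Real.exp_add]
        ring_nf
      rw [h2, abs_mul, Real.abs_exp, Real.exp_add]
      refine mul_le_mul (hWall i l) (Real.exp_le_exp.2 ?_) (Real.exp_pos _).le (Real.exp_pos _).le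
      have h3 := (abs_le.1 (hc l)).1
      linarith
    refine (sz_le h1).trans ?_
    have h4 : (m : ℝ) * (m * Real.exp (b + δ)) = (m : ℝ) ^ 2 * Real.exp (b + δ) := by ring
    rw [h4]
    refine mul_le_mul (pow_le_pow_right₀ hm1 (by omega)) (Real.exp_le_exp.2 ?_)
      (Real.exp_pos _).le (by positivity)
    nlinarith
  · have h1 : ∀ i l, |(((((ud c)⁻¹ * V * ud c')⁻¹ : (Matrix (Fin m) (Fin m) ℝ)ˣ)) :
        Matrix (Fin m) (Fin m) ℝ) i l| ≤
        (m : ℝ) * ((m : ℝ) * Real.exp b) ^ m * Real.exp δ := by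
      intro i l
      have h2 : (((((ud c)⁻¹ * V * ud c')⁻¹ : (Matrix (Fin m) (Fin m) ℝ)ˣ)) :
          Matrix (Fin m) (Fin m) ℝ) i l = Real.exp (c i - c' i) * Wi i l := by
        have h3 : ((ud c)⁻¹ * V * ud c')⁻¹ =
            (ud c')⁻¹ * ud c * ((ud c)⁻¹ * V * ud c)⁻¹ := by group
        rw [h3, Units.val_mul, Units.val_mul, ← hWi]
        change (diagonal (fun i => Real.exp (-c' i)) * diagonal (fun i => Real.exp (c i)) *
          Wi) i l = _
        rw [Matrix.diagonal_mul_diagonal, Matrix.diagonal_mul, ← Real.exp_add]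
        ring_nf
      rw [h2, abs_mul, Real.abs_exp, mul_comm]
      refine mul_le_mul (hWib i l) (Real.exp_le_exp.2 ?_) (Real.exp_pos _).le (by positivity)
      exact (abs_le.1 (hc i)).2
    refine (sz_le h1).trans ?_
    rw [hpow, Real.exp_add]
    have h4 : (m : ℝ) * (m * (m * (m ^ m * Real.exp (m * b)) * Real.exp δ)) =
        (m : ℝ) ^ (m + 3) * (Real.exp (m * b) * Real.exp δ) := by
      rw [pow_add]; ring
    rw [h4]

theorem enu (hLEN : LenStmt) (_hNRM : NrmStmt) : EnuStmt := by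
  intro D
  refine ⟨(D.m + 3) * D.m + D.m + 1, by positivity, ?_⟩
  intro p p' b δ hb hδ hc hv
  rcases Nat.eq_zero_or_pos D.m with hm | hm
  · have h1 := (hLEN D.m ((D.mat p)⁻¹ * D.mat p') 1).2.2.2.2.2 hm
    rw [h1]
    positivity
  · have h1 := (hLEN D.m ((D.mat p)⁻¹ * D.mat p') 1).2.2.2.2.1 hm
    have hsx := D.su p.1 p.1.2
    have hsx' := D.su p'.1 p'.1.2
    have hV : SU ((((ue (p.1 : Matrix (Fin D.m) (Fin D.m) ℝ))⁻¹ *
        ue (p'.1 : Matrix (Fin D.m) (Fin D.m) ℝ) : (Matrix (Fin D.m) (Fin D.m) ℝ)ˣ) :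
        Matrix (Fin D.m) (Fin D.m) ℝ) - 1) := by
      rw [Units.val_mul, ue_inv_val hsx, ue_val hsx']
      exact UU_mul (mexp_sub_one_SU hsx.neg) (mexp_sub_one_SU hsx')
    have h2 : (D.mat p)⁻¹ * D.mat p' = (ud (p.2 : Fin D.m → ℝ))⁻¹ *
        ((ue (p.1 : Matrix (Fin D.m) (Fin D.m) ℝ))⁻¹ *
          ue (p'.1 : Matrix (Fin D.m) (Fin D.m) ℝ)) * ud (p'.2 : Fin D.m → ℝ) := by
      unfold Dat.mat
      group
    obtain ⟨k1, k2⟩ := key hm _ hV (p.2 : Fin D.m → ℝ) (p'.2 : Fin D.m → ℝ) b δ hb hδ hc hv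
    rw [← h2] at k1 k2
    refine h1.trans ?_
    have hmr : (1 : ℝ) ≤ D.m := by exact_mod_cast hm
    have hlog : Real.log (D.m : ℝ) ≤ D.m := by
      have := Real.log_le_sub_one_of_pos (by linarith : (0 : ℝ) < D.m)
      linarith
    have hmax : max (sz (((D.mat p)⁻¹ * D.mat p' : (Matrix (Fin D.m) (Fin D.m) ℝ)ˣ) :
        Matrix (Fin D.m) (Fin D.m) ℝ))
        (sz ((((D.mat p)⁻¹ * D.mat p')⁻¹ : (Matrix (Fin D.m) (Fin D.m) ℝ)ˣ) :
        Matrix (Fin D.m) (Fin D.m) ℝ)) ≤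
        (D.m : ℝ) ^ (D.m + 3) * Real.exp (D.m * b + δ) := max_le k1 k2
    have hRHS : (0 : ℝ) < (D.m : ℝ) ^ (D.m + 3) * Real.exp (D.m * b + δ) := by positivity
    have hlog2 : Real.log ((D.m : ℝ) ^ (D.m + 3) * Real.exp (D.m * b + δ)) =
        (D.m + 3) * Real.log D.m + (D.m * b + δ) := by
      rw [Real.log_mul (by positivity) (by positivity), Real.log_pow, Real.log_exp]
      push_cast
      ring
    have h5 : Real.log (max (sz (((D.mat p)⁻¹ * D.mat p' : (Matrix (Fin D.m) (Fin D.m) ℝ)ˣ) :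
        Matrix (Fin D.m) (Fin D.m) ℝ))
        (sz ((((D.mat p)⁻¹ * D.mat p')⁻¹ : (Matrix (Fin D.m) (Fin D.m) ℝ)ˣ) :
        Matrix (Fin D.m) (Fin D.m) ℝ))) ≤
        (D.m + 3) * Real.log D.m + (D.m * b + δ) := by
      rw [← hlog2]
      rcases lt_or_ge 0 (max (sz (((D.mat p)⁻¹ * D.mat p' : (Matrix (Fin D.m) (Fin D.m) ℝ)ˣ) :
        Matrix (Fin D.m) (Fin D.m) ℝ))
        (sz ((((D.mat p)⁻¹ * D.mat p')⁻¹ : (Matrix (Fin D.m) (Fin D.m) ℝ)ˣ) :
        Matrix (Fin D.m) (Fin D.m) ℝ))) with h6 | h6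
      · exact Real.log_le_log h6 hmax
      · have h7 : max (sz (((D.mat p)⁻¹ * D.mat p' : (Matrix (Fin D.m) (Fin D.m) ℝ)ˣ) :
            Matrix (Fin D.m) (Fin D.m) ℝ))
            (sz ((((D.mat p)⁻¹ * D.mat p')⁻¹ : (Matrix (Fin D.m) (Fin D.m) ℝ)ˣ) :
            Matrix (Fin D.m) (Fin D.m) ℝ)) = 0 := by
          refine le_antisymm h6 (le_max_of_le_left ?_)
          unfold sz
          positivity
        rw [h7, Real.log_zero, hlog2]
        have := Real.log_nonneg hmr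
        positivity
    refine h5.trans ?_
    have h8 : ((D.m : ℝ) + 3) * Real.log D.m ≤ (D.m + 3) * D.m :=
      mul_le_mul_of_nonneg_left hlog (by positivity)
    have h9 : (0 : ℝ) ≤ D.m * b := by positivity
    have h10 : (0 : ℝ) ≤ D.m * δ := by positivity
    have h11 : (0 : ℝ) ≤ (D.m + 3) * D.m * b := by positivity
    have h12 : (0 : ℝ) ≤ (D.m + 3) * D.m * δ := by positivity
    nlinarith

end Pool.Agent.QSX.H50
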